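import Mathlib
import Pool.Agent.Q58.Thin.Defs
import Pool.Agent.Q58.Thin.Final

/-!
# Thin rays and unbounded integer cubic minimization

For every dimension `n`, every rational polyhedron `P = {x : A x ≤ b}` in `ℝⁿ` and every real
polynomial `f` of degree at most three, the infimum of `f` over the lattice points of `P` is `-∞`
exactly when `P` has an unbounded thin ray for `f`.
-/

namespace Pool.Agent.Results.MP_0e8110_lc.ThinRays

open Q58.Thin

theorem result (n m : ℕ) (A : Matrix (Fin m) (Fin n) ℚ) (b : Fin m → ℚ)
    (f : MvPolynomial (Fin n) ℝ) (hf : f.totalDegree ≤ 3) :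
    UnbddBelowOn (fun x => MvPolynomial.eval (fun j => x j) f)
        {x : EuclideanSpace ℝ (Fin n) | x ∈ polyhedron A b ∧ IsInt x} ↔
      ∃ y d : EuclideanSpace ℝ (Fin n),
        IsUnboundedThinRay (polyhedron A b) (fun x => MvPolynomial.eval (fun j => x j) f) y d :=
  thin_ray A b f hf

end Pool.Agent.Results.MP_0e8110_lc.ThinRays
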